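import Pool.Agent.V1187.PWheel

/-!
# A quantum graph with a bridge whose hot-spot set is infinite

The graph is the equilateral wheel with four spokes, with a pendant edge of length `1/2` attached at
the hub. Its second eigenvalue is `π ^ 2 / 4`, with multiplicity two, and every point of the rim is a
hot spot.
-/

set_option autoImplicit false

namespace Pool.Agent.Results.MP_159dfd_an.BridgeHotSpots

open Pool.Agent.V1187.QG

/-- There is a compact connected metric graph with a bridge such that, for the Laplacian with standard
vertex conditions, the set of all points at which some second eigenfunction attains its global maximum
or its global minimum is infinite. -/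
theorem result : ∃ G : MetricGraph, G.Connected ∧ (∃ e, G.IsBridge e) ∧
    (G.HotSpots 0).Infinite :=
  ⟨pwheel, pwheel_connected, ⟨_, pwheel_bridge⟩, pwheel_hot_infinite⟩

end Pool.Agent.Results.MP_159dfd_an.BridgeHotSpots
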